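import Pool.Agent.K6.H33.PT.LStm

set_option autoImplicit false

/-! # Pfaffians over a commutative ring: cleaning with a pivot -/

namespace Pool.Agent.K6.H7.PT

open Matrix Pool.Agent.Helper929 Pool.Agent.K6.H33.PT Pool.Agent.K6.H33.NT

section Ring

variable {R : Type} [CommRing R]

theorem toBilin_self' {n : ℕ} (A : Matrix (Fin n) (Fin n) R) (h0 : ∀ i, A i i = 0)
    (hA : ∀ i j, A i j = - A j i) (x : Fin n → R) : Matrix.toBilin' A x x = 0 := by
  rw [Matrix.toBilin'_apply, ← Finset.sum_product']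
  refine Finset.sum_involution (fun p _ => (p.2, p.1)) ?_ ?_ ?_ ?_
  · intro p _
    simp only
    rw [hA p.2 p.1]
    ring
  · intro p _ hp h
    apply hp
    have h1 : p.2 = p.1 := congrArg Prod.fst h
    rw [h1, h0]
    ring
  · intro p _; simp
  · intro p _; rfl

theorem pf_gram' {n : ℕ} (A : Matrix (Fin n) (Fin n) R) (h0 : ∀ i, A i i = 0)
    (hA : ∀ i j, A i j = - A j i) (P : Matrix (Fin n) (Fin n) R) :
    pf n (P * A * Pᵀ) = P.det * pf n A := by
  have h1 := pfE_eq (Matrix.toBilin' A) (toBilin_self' A h0 hA) n (fun i => P i)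
  have h2 := pfE_eq (Matrix.toBilin' A) (toBilin_self' A h0 hA) n
    (fun i => (Pi.basisFun R (Fin n)) i)
  have h3 := (pfE (Matrix.toBilin' A) (toBilin_self' A h0 hA) n).eq_smul_basis_det
    (Pi.basisFun R (Fin n))
  have h4 : (Matrix.of fun i j => Matrix.toBilin' A (P i) (P j)) = P * A * Pᵀ := by
    ext i j
    rw [Matrix.of_apply, Matrix.toBilin'_apply, Matrix.mul_apply]
    simp_rw [Matrix.mul_apply, Matrix.transpose_apply, Finset.sum_mul]
    rw [Finset.sum_comm]
  have h5 : (Matrix.of fun i j => Matrix.toBilin' A ((Pi.basisFun R (Fin n)) i)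
      ((Pi.basisFun R (Fin n)) j)) = A := by
    ext i j
    simp [Matrix.toBilin'_single]
  rw [h4] at h1
  rw [h5] at h2
  have h6 : pfE (Matrix.toBilin' A) (toBilin_self' A h0 hA) n (fun i => P i) =
      pfE (Matrix.toBilin' A) (toBilin_self' A h0 hA) n (fun i => (Pi.basisFun R (Fin n)) i) *
        P.det := by
    conv_lhs => rw [h3]
    rw [AlternatingMap.smul_apply, Pi.basisFun_det_apply, smul_eq_mul]
    rfl
  rw [← h1, ← h2, h6, mul_comm]

/-- Cleaning with the pivot `k`. -/
theorem pf_clean {n : ℕ} (A : Matrix (Fin n) (Fin n) R) (h0 : ∀ i, A i i = 0)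
    (hA : ∀ i j, A i j = - A j i) (k : Fin n) (c : Fin n → R) (hc : c k = 0) :
    pf n (Matrix.of fun i j => A i j + c i * A k j + c j * A i k) = pf n A := by
  set P : Matrix (Fin n) (Fin n) R :=
    1 + Matrix.replicateCol Unit c * Matrix.replicateRow Unit (Pi.single k (1 : R)) with hP
  have hPe : ∀ i j, P i j = (if i = j then 1 else 0) + (if j = k then c i else 0) := by
    intro i j
    rw [hP, Matrix.add_apply, Matrix.mul_apply, Matrix.one_apply]
    simp [Pi.single_apply]
  have hdet : P.det = 1 := by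
    rw [hP, Matrix.det_one_add_replicateCol_mul_replicateRow]
    simp [hc]
  have h1 := pf_gram' A h0 hA P
  rw [hdet, one_mul] at h1
  rw [← h1]
  congr 1
  ext i j
  rw [Matrix.of_apply, Matrix.mul_apply]
  simp_rw [Matrix.mul_apply, Matrix.transpose_apply, hPe, add_mul, Finset.sum_add_distrib]
  simp only [ite_mul, one_mul, zero_mul, Finset.sum_ite_eq, Finset.mem_univ, if_true, mul_add,
    mul_ite, mul_one, mul_zero, Finset.sum_add_distrib, Finset.sum_ite_eq', add_mul]
  rw [h0 k]
  ring

theorem pf_perm' {n : ℕ} (A : Matrix (Fin n) (Fin n) R) (h0 : ∀ i, A i i = 0)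
    (hA : ∀ i j, A i j = - A j i) (s : Equiv.Perm (Fin n)) :
    pf n (A.submatrix s s) = ((Equiv.Perm.sign s : ℤ) : R) * pf n A := by
  have h := pf_gram' A h0 hA (s.permMatrix R)
  have h1 : s.permMatrix R * A * (s.permMatrix R)ᵀ = A.submatrix s s := by
    rw [Matrix.transpose_permMatrix, Equiv.Perm.permMatrix, Equiv.Perm.permMatrix,
      PEquiv.toMatrix_toPEquiv_mul, PEquiv.mul_toMatrix_toPEquiv]
    rfl
  rw [h1] at h
  rw [h, Matrix.det_permutation]

theorem pN_congr {q : ℕ} {F F' : ℕ → ℕ → R} (h : ∀ i < 2 * q, ∀ j < 2 * q, F i j = F' i j) :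
    pN q F = pN q F' := by
  unfold pN
  congr 1
  ext i j
  exact h i i.2 j j.2

/-- Cleaning for arrays. -/
theorem pN_clean (q : ℕ) (F : ℕ → ℕ → R) (hF : Alt F) (k : ℕ) (hk : k < 2 * q) (c : ℕ → R)
    (hc : c k = 0) : pN q (fun i j => F i j + c i * F k j + c j * F i k) = pN q F := by
  unfold pN
  exact pf_clean (Matrix.of fun i j : Fin (2 * q) => F i j) (fun i => hF.1 i)
    (fun i j => hF.2 i j) ⟨k, hk⟩ (fun i => c i) hc

theorem bt_alt {u : ℕ → R} {C : ℕ → ℕ → R} (hC : Alt C) : Alt (bt u C) := by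
  constructor
  · intro i
    cases i with
    | zero => rfl
    | succ i => exact hC.1 i
  · intro i j
    cases i with
    | zero =>
      cases j with
      | zero => simp [bt]
      | succ j => simp [bt]
    | succ i =>
      cases j with
      | zero => rfl
      | succ j => exact hC.2 i j

end Ring

theorem t_LS : S_LS := by
  intro A _ k m q L hk hm hL u C C' hC hC' hU hN
  obtain ⟨v, hv⟩ := hU.exists_left_inv
  set c : ℕ → A := fun i => if i = 0 then 0 else -(v * C (i - 1) k) with hc
  rw [← pN_clean (q + 1) (bt u C) (bt_alt hC) 0 (by omega) c (by simp [hc])]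
  refine pN_congr fun i hi j hj => ?_
  rcases i with _ | i
  · rcases j with _ | j
    · simp [bt, hc]
    · simp [bt, hc]
  · rcases j with _ | j
    · simp [bt, hc]
    · have hi' : mv k m i = i := by unfold mv; rw [if_pos (by omega)]
      have hj' : mv k m j = j := by unfold mv; rw [if_pos (by omega)]
      have h1 := hN i (by omega) j (by omega)
      rw [hi', hj'] at h1
      unfold lm at h1
      rw [if_pos ⟨by omega, by omega⟩, if_pos ⟨by omega, by omega⟩] at h1
      simp only [bt, hc, Nat.add_sub_cancel, Nat.succ_ne_zero, if_false]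
      linear_combination (-v) * h1 + (C' i j - C i j) * hv

theorem t_LM : S_LM := by
  intro A _ k m q L hk hm hL u C C' hC hC' hU hN
  obtain ⟨v, hv⟩ := hU.exists_left_inv
  set c : ℕ → A := fun i => if i = 0 ∨ i = k + 1 then 0 else -(v * u (i - 1)) with hc
  rw [← pN_clean (q + 1) (bt u C) (bt_alt hC) (k + 1) (by omega) c (by simp [hc])]
  set D : ℕ → ℕ → A := fun i j => bt u C i j + c i * bt u C (k + 1) j + c j * bt u C i (k + 1)
    with hD
  have hmv : ∀ i < 2 * q, mv k m i = if i < k then i else i + 1 := by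
    intro i hi
    unfold mv
    by_cases h1 : i < k
    · rw [if_pos h1, if_pos h1]
    · rw [if_neg h1, if_neg h1, if_pos (by omega)]
  have hD0 : ∀ o, o ≠ k → D 0 (o + 1) = 0 := by
    intro o ho
    have h1 : ¬ (o + 1 = 0 ∨ o + 1 = k + 1) := by omega
    simp only [hD, hc, bt, if_neg h1, true_or, if_true, Nat.add_sub_cancel]
    linear_combination (-(u o)) * hv
  have hDk : D 0 (k + 1) = u k := by
    simp only [hD, hc, bt, true_or, or_true, if_true]
    ring
  have hDD : ∀ i < 2 * q, ∀ j < 2 * q, D (mv k m i + 1) (mv k m j + 1) = C' i j := by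
    intro i hi j hj
    have h1 := hN i (by omega) j (by omega)
    have hi' := hmv i hi
    have hj' := hmv j hj
    have hik : mv k m i ≠ k := by rw [hi']; split_ifs <;> omega
    have hjk : mv k m j ≠ k := by rw [hj']; split_ifs <;> omega
    have him : mv k m i < m := by rw [hi']; split_ifs <;> omega
    have hjm : mv k m j < m := by rw [hj']; split_ifs <;> omega
    unfold lm at h1
    rw [if_pos ⟨him, hik⟩, if_pos ⟨hjm, hjk⟩] at h1
    have e1 : ¬ (mv k m i + 1 = 0 ∨ mv k m i + 1 = k + 1) := by omega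
    have e2 : ¬ (mv k m j + 1 = 0 ∨ mv k m j + 1 = k + 1) := by omega
    simp only [hD, hc, bt, if_neg e1, if_neg e2, Nat.add_sub_cancel]
    rw [hC.2 k (mv k m j)]
    linear_combination (-v) * h1 + (C' i j - C (mv k m i) (mv k m j)) * hv
  have hp : pN (q + 1) D = ∑ j : Fin (2 * q + 1), (-1) ^ (j : ℕ) * D 0 (j + 1) *
      pf (2 * q) ((Matrix.of fun i j : Fin (2 * q + 2) => D i j).submatrix
        (fun l => (j.succAbove l).succ) (fun l => (j.succAbove l).succ)) := by
    unfold pN
    rfl
  rw [hp, Finset.sum_eq_single (⟨k, by omega⟩ : Fin (2 * q + 1))]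
  · rw [hDk]
    congr 1
    unfold pN
    congr 1
    ext i j
    simp only [Matrix.submatrix_apply, Matrix.of_apply, Fin.val_succ]
    have hs : ∀ l : Fin (2 * q), ((Fin.succAbove (⟨k, by omega⟩ : Fin (2 * q + 1)) l :
        Fin (2 * q + 1)) : ℕ) = mv k m l := by
      intro l
      rw [hmv l l.2]
      by_cases h3 : (l : ℕ) < k
      · rw [if_pos h3, Fin.succAbove_of_castSucc_lt _ _ (by rw [Fin.lt_def]; exact h3)]
        rfl
      · rw [if_neg h3, Fin.succAbove_of_le_castSucc _ _ (by
          rw [Fin.le_def]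
          simp only [Fin.val_castSucc]
          omega)]
        rfl
    rw [hs i, hs j]
    exact hDD i i.2 j j.2
  · intro b _ hb
    have h1 : (b : ℕ) ≠ k := fun h => hb (Fin.ext h)
    rw [hD0 _ h1]
    ring
  · intro h; exact absurd (Finset.mem_univ _) h

theorem t_LL : S_LL := by
  intro A _ k m q L hk hm hL u C C' hC hC' hU hN
  obtain ⟨v, hv⟩ := hU.exists_left_inv
  set c : ℕ → A := fun i => -(v * lm u k m i) with hc
  have hck : c k = 0 := by simp [hc, lm]
  set D : ℕ → ℕ → A := fun i j => C i j + c i * C k j + c j * C i k with hD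
  have e1 : pN q D = pN q C := pN_clean q C hC k (by omega) c hck
  have hDalt : Alt D := by
    constructor
    · intro i
      simp only [hD]
      rw [hC.1 i, hC.2 k i]
      ring
    · intro i j
      simp only [hD]
      rw [hC.2 i j, hC.2 k i, hC.2 k j]
      ring
  have e2 : (Matrix.of fun i j : Fin (2 * q) => C' i j) =
      (Matrix.of fun i j : Fin (2 * q) => D i j).submatrix (sg k m (2 * q) hk hm)
        (sg k m (2 * q) hk hm) := by
    ext i j
    simp only [Matrix.submatrix_apply, Matrix.of_apply]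
    have h3 : ∀ i : Fin (2 * q), ((sg k m (2 * q) hk hm i : Fin (2 * q)) : ℕ) = mv k m i :=
      fun i => rfl
    rw [h3 i, h3 j]
    have h1 := hN i (by omega) j (by omega)
    simp only [hD, hc]
    rw [hC.2 k (mv k m j)]
    linear_combination v * h1 - (C' i j - C (mv k m i) (mv k m j)) * hv
  have e3 : pN q C' = ((Equiv.Perm.sign (sg k m (2 * q) hk hm) : ℤ) : A) * pN q D := by
    unfold pN
    rw [e2]
    exact pf_perm' _ (fun i => hDalt.1 i) (fun i j => hDalt.2 i j) _
  have hs : ((Equiv.Perm.sign (sg k m (2 * q) hk hm) : ℤ) : A) *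
      ((Equiv.Perm.sign (sg k m (2 * q) hk hm) : ℤ) : A) = 1 := by
    rw [← Int.cast_mul, ← Units.val_mul, Int.units_mul_self]
    simp
  rw [e3, e1, ← mul_assoc, hs, one_mul]

end Pool.Agent.K6.H7.PT
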